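import Mathlib
import Pool.Agent.Lib_helper28.Heat.Defs

/-! H2: reversibility of the Mehler semigroup. -/

set_option autoImplicit false

open MeasureTheory ProbabilityTheory Set Polynomial

namespace Pool.Agent.Lib_helper26.Heat

open Pool.Agent.Lib28.Heat

lemma integrable_eval (p : ℝ[X]) : Integrable (fun x => p.eval x) (gaussianReal 0 1) := by
  simp only [Polynomial.eval_eq_sum_range]
  apply integrable_finsetSum
  intro i _
  apply Integrable.const_mul
  have h := (memLp_id_gaussianReal (μ := 0) (v := 1) (i : NNReal)).integrable_norm_pow' (p := i)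
  refine h.mono (by fun_prop) (Filter.Eventually.of_forall fun x => ?_)
  simp

/-- the orthogonal involution -/
noncomputable def M (ρ σ : ℝ) (z : ℝ × ℝ) : ℝ × ℝ := (ρ * z.1 + σ * z.2, σ * z.1 - ρ * z.2)

lemma measurePreserving_M (ρ σ : ℝ) (h : ρ ^ 2 + σ ^ 2 = 1) :
    MeasurePreserving (M ρ σ) ((gaussianReal 0 1).prod (gaussianReal 0 1))
      ((gaussianReal 0 1).prod (gaussianReal 0 1)) := by
  obtain ⟨θ, hc, hs⟩ : ∃ θ : ℝ, Real.cos θ = ρ ∧ Real.sin θ = σ := by
    have h1 : ‖(⟨ρ, σ⟩ : ℂ)‖ = 1 := by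
      rw [Complex.norm_def, Complex.normSq_mk, Real.sqrt_eq_one]
      nlinarith
    refine ⟨Complex.arg ⟨ρ, σ⟩, ?_, ?_⟩
    · have := Complex.norm_mul_cos_arg (⟨ρ, σ⟩ : ℂ)
      rw [h1, one_mul] at this
      exact this
    · have := Complex.norm_mul_sin_arg (⟨ρ, σ⟩ : ℂ)
      rw [h1, one_mul] at this
      exact this
  have hrot : MeasurePreserving (ContinuousLinearMap.rotation θ : ℝ × ℝ → ℝ × ℝ)
      ((gaussianReal 0 1).prod (gaussianReal 0 1)) ((gaussianReal 0 1).prod (gaussianReal 0 1)) := by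
    refine ⟨by fun_prop, ?_⟩
    apply IsGaussian.map_rotation_eq_self
    simp
  have hneg : MeasurePreserving (fun x : ℝ => -x) (gaussianReal 0 1) (gaussianReal 0 1) := by
    refine ⟨by fun_prop, ?_⟩
    rw [gaussianReal_map_neg]; simp
  have hid : MeasurePreserving (id : ℝ → ℝ) (gaussianReal 0 1) (gaussianReal 0 1) :=
    MeasurePreserving.id _
  have h2 := (hid.prod hneg).comp hrot
  have h3 : M ρ σ = (Prod.map id fun x : ℝ => -x) ∘
      (ContinuousLinearMap.rotation θ : ℝ × ℝ → ℝ × ℝ) := by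
    ext z
    · simp [M, ContinuousLinearMap.rotation_apply, hc, hs]
    · simp [M, ContinuousLinearMap.rotation_apply, hc, hs]
      ring
  rw [h3]
  exact h2

/-- H2 (reversibility of the Mehler semigroup), for functions dominated by a polynomial. -/
theorem Pt_symm (t : ℝ) (ht : 0 ≤ t) (h k : ℝ → ℝ) (hh : Measurable h) (hk : Measurable k)
    (p : ℝ[X]) (hhp : ∀ x, |h x| ≤ |p.eval x|) (hkb : ∀ x, |k x| ≤ 1) :
    ∫ x, Pt t h x * k x ∂(gaussianReal 0 1) = ∫ x, h x * Pt t k x ∂(gaussianReal 0 1) := by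
  set ρ := Real.exp (-t) with hρ
  set σ := Real.sqrt (1 - Real.exp (-2 * t)) with hσ
  have hρσ : ρ ^ 2 + σ ^ 2 = 1 := by
    rw [hσ, Real.sq_sqrt, hρ, ← Real.exp_nat_mul]
    · have : ((2 : ℕ) : ℝ) * -t = -2 * t := by push_cast; ring
      rw [this]; ring
    · rw [sub_nonneg, Real.exp_le_one_iff]; linarith
  set G : ℝ × ℝ → ℝ := fun z => h z.1 * k (ρ * z.1 + σ * z.2) with hG
  have hGm : Measurable G := by
    rw [hG]
    exact (hh.comp measurable_fst).mul (hk.comp (by fun_prop))
  have hGi : Integrable G ((gaussianReal 0 1).prod (gaussianReal 0 1)) := by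
    have h1 : Integrable (fun z : ℝ × ℝ => p.eval z.1)
        ((gaussianReal 0 1).prod (gaussianReal 0 1)) := (integrable_eval p).comp_fst _
    refine h1.mono hGm.aestronglyMeasurable (Filter.Eventually.of_forall fun z => ?_)
    rw [hG]
    simp only [norm_mul, Real.norm_eq_abs]
    calc |h z.1| * |k (ρ * z.1 + σ * z.2)| ≤ |p.eval z.1| * 1 :=
          mul_le_mul (hhp _) (hkb _) (abs_nonneg _) (abs_nonneg _)
      _ = |p.eval z.1| := mul_one _
  have hM := measurePreserving_M ρ σ hρσ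
  have hMM : ∀ z, (M ρ σ z).1 = ρ * z.1 + σ * z.2 ∧
      ρ * (M ρ σ z).1 + σ * (M ρ σ z).2 = z.1 := by
    intro z
    refine ⟨rfl, ?_⟩
    simp only [M]
    linear_combination z.1 * hρσ
  have hGM : ∀ z, G (M ρ σ z) = h (ρ * z.1 + σ * z.2) * k z.1 := by
    intro z
    rw [hG]
    simp only
    rw [(hMM z).2, (hMM z).1]
  have hGMi : Integrable (fun z : ℝ × ℝ => h (ρ * z.1 + σ * z.2) * k z.1)
      ((gaussianReal 0 1).prod (gaussianReal 0 1)) := by
    have := hM.integrable_comp_of_integrable hGi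
    refine this.congr (Filter.Eventually.of_forall fun z => ?_)
    exact hGM z
  have hL : ∫ x, Pt t h x * k x ∂(gaussianReal 0 1) =
      ∫ z, G (M ρ σ z) ∂((gaussianReal 0 1).prod (gaussianReal 0 1)) := by
    simp only [hGM]
    rw [integral_prod _ hGMi]
    congr 1
    ext x
    exact (integral_mul_const _ _).symm
  have hR : ∫ x, h x * Pt t k x ∂(gaussianReal 0 1) =
      ∫ z, G z ∂((gaussianReal 0 1).prod (gaussianReal 0 1)) := by
    rw [integral_prod _ hGi]
    congr 1
    ext x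
    exact (integral_const_mul _ _).symm
  rw [hL, hR]
  have h5 := hM.map_eq
  conv_rhs => rw [← h5]
  rw [integral_map hM.measurable.aemeasurable hGm.aestronglyMeasurable]

end Pool.Agent.Lib_helper26.Heat
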